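import Pool.Agent.H52.KP.Targets

set_option autoImplicit false
set_option linter.unusedSectionVars false

/-!
# DER. The derivative formula along a path, in integrated form
-/

open MeasureTheory Metric Set Topology Filter
open scoped RealInnerProductSpace

namespace Pool.Agent.H35.KPO

open Pool.Agent.H52.KP Pool.Agent.H65k

/-- the shifted smoothing -/
noncomputable def phs (k : ℕ) (σ t : ℝ) : ℝ := phk k (t - σ)

lemma phs_contDiff (k : ℕ) (σ : ℝ) : ContDiff ℝ 2 (phs k σ) :=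
  (phk_contDiff k).comp (contDiff_id.sub contDiff_const)

lemma phs_deriv (k : ℕ) (σ t : ℝ) : deriv (phs k σ) t = deriv (phk k) (t - σ) :=
  deriv_comp_sub_const _ _ _

lemma phs_zero {k : ℕ} (hk : 1 ≤ k) {σ : ℝ} (hσ : σ ≤ 1 / 2) (t : ℝ) (ht : 1 ≤ t) :
    phs k σ t = 0 := by
  refine phk_zero k ?_
  have h1 : (1 : ℝ) ≤ k := by exact_mod_cast hk
  nlinarith

section gen

variable {n : ℕ} {V : Type*} [NormedAddCommGroup V] [InnerProductSpace ℝ V]

/-- the pointwise identity. -/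
lemma pointwise_eq (φ M : ℝ → ℝ) (ρ : Fin n → ℝ) (c v : Fin n → V) (y : V) :
    ∑ i, (dA φ M ρ i c v y - dA φ M ρ i c (fun _ => v i) y)
      = ∑ i, ∑ j, ⟪c i - c j, v i - v j⟫ * (deriv (deriv M) (sg φ ρ (c, y)) *
          (deriv φ (pw ρ i (c, y)) * deriv φ (pw ρ j (c, y)))) := by
  set m2 := deriv (deriv M) (sg φ ρ (c, y)) with hm2
  set p : Fin n → ℝ := fun j => deriv φ (pw ρ j (c, y)) with hp
  have h1 : ∀ i, dA φ M ρ i c v y - dA φ M ρ i c (fun _ => v i) y
      = ∑ j, m2 * (p i * p j) * (2 * ⟪y - c j, v i - v j⟫) := by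
    intro i
    unfold dA
    have e1 : m2 * (∑ j, p j * (2 * ⟪y - c j, - v j⟫)) * p i
        - m2 * (∑ j, p j * (2 * ⟪y - c j, - v i⟫)) * p i
        = ∑ j, m2 * (p i * p j) * (2 * ⟪y - c j, v i - v j⟫) := by
      rw [Finset.mul_sum, Finset.mul_sum, Finset.sum_mul, Finset.sum_mul, ← Finset.sum_sub_distrib]
      refine Finset.sum_congr rfl fun j _ => ?_
      rw [inner_neg_right, inner_neg_right, inner_sub_right]
      ring
    rw [← e1]
    simp only [hm2, hp]
    ring
  simp_rw [h1]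
  have h2 : ∑ i, ∑ j, m2 * (p i * p j) * (2 * ⟪y - c j, v i - v j⟫)
      = ∑ i, ∑ j, m2 * (p i * p j) * (2 * ⟪y - c i, v j - v i⟫) := by
    rw [Finset.sum_comm]
    refine Finset.sum_congr rfl fun i _ => Finset.sum_congr rfl fun j _ => ?_
    ring
  have h3 : 2 * (∑ i, ∑ j, m2 * (p i * p j) * (2 * ⟪y - c j, v i - v j⟫))
      = ∑ i, ∑ j, m2 * (p i * p j) * (2 * ⟪c i - c j, v i - v j⟫) := by
    have : 2 * (∑ i, ∑ j, m2 * (p i * p j) * (2 * ⟪y - c j, v i - v j⟫))
      = (∑ i, ∑ j, m2 * (p i * p j) * (2 * ⟪y - c j, v i - v j⟫))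
        + ∑ i, ∑ j, m2 * (p i * p j) * (2 * ⟪y - c i, v j - v i⟫) := by
      rw [← h2]; ring
    rw [this, ← Finset.sum_add_distrib]
    refine Finset.sum_congr rfl fun i _ => ?_
    rw [← Finset.sum_add_distrib]
    refine Finset.sum_congr rfl fun j _ => ?_
    have e : ⟪y - c i, v j - v i⟫ = - ⟪y - c i, v i - v j⟫ := by
      rw [← inner_neg_right, neg_sub]
    have e2 : ⟪c i - c j, v i - v j⟫ = ⟪y - c j, v i - v j⟫ - ⟪y - c i, v i - v j⟫ := by
      rw [← inner_sub_left]; congr 1; abel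
    rw [e, e2]; ring
  have h4 : ∑ i, ∑ j, m2 * (p i * p j) * (2 * ⟪c i - c j, v i - v j⟫)
      = 2 * ∑ i, ∑ j, ⟪c i - c j, v i - v j⟫ * (m2 * (p i * p j)) := by
    rw [Finset.mul_sum]
    refine Finset.sum_congr rfl fun i _ => ?_
    rw [Finset.mul_sum]
    refine Finset.sum_congr rfl fun j _ => ?_
    ring
  linarith

variable [FiniteDimensional ℝ V] [MeasurableSpace V] [BorelSpace V]

lemma integrable_wall {φ M : ℝ → ℝ} (hφ : ContDiff ℝ 2 φ) (hM : ContDiff ℝ 2 M)
    (hφ1 : ∀ t, 1 ≤ t → φ t = 0) (ρ : Fin n → ℝ) (c : Fin n → V) (i j : Fin n) :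
    Integrable (fun y : V => deriv (deriv M) (sg φ ρ (c, y)) *
      (deriv φ (pw ρ i (c, y)) * deriv φ (pw ρ j (c, y)))) volume := by
  have hcy : Continuous fun y : V => ((c, y) : (Fin n → V) × V) := by fun_prop
  have h1 : Continuous fun y : V => sg φ ρ (c, y) := (contDiff_sg hφ ρ).continuous.comp hcy
  have h2 : ∀ l, Continuous fun y : V => pw ρ l (c, y) :=
    fun l => (contDiff_pw ρ l).continuous.comp hcy
  have h3 : Continuous (deriv (deriv M)) :=
    (contDiff_deriv_of hM).continuous_deriv (le_refl _)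
  have h4 : Continuous (deriv φ) := (contDiff_deriv_of hφ).continuous
  have hc : Continuous (fun y : V => deriv (deriv M) (sg φ ρ (c, y)) *
      (deriv φ (pw ρ i (c, y)) * deriv φ (pw ρ j (c, y)))) :=
    (h3.comp h1).mul ((h4.comp (h2 i)).mul (h4.comp (h2 j)))
  refine hc.integrable_of_hasCompactSupport ?_
  refine HasCompactSupport.intro (isCompact_closedBall (0 : V) (‖c i‖ + |ρ i| + 1)) ?_
  intro y hy
  have hy2 : ‖c i‖ + |ρ i| + 1 < ‖y‖ := by simpa using hy
  have h5 : |ρ i| + 1 < ‖y - c i‖ := by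
    have := norm_sub_norm_le y (c i)
    linarith
  have h6 : 1 < pw ρ i (c, y) := by
    show 1 < ‖y - c i‖ ^ 2 - ρ i ^ 2
    have h7 : 0 ≤ |ρ i| := abs_nonneg _
    rw [← sq_abs (ρ i)]
    nlinarith
  rw [deriv_zero_of hφ1 h6]
  ring

/-- the value of the derivative of `J`. -/
lemma derJ {φ M : ℝ → ℝ} (hφ : ContDiff ℝ 2 φ) (hM : ContDiff ℝ 2 M)
    (hφ1 : ∀ t, 1 ≤ t → φ t = 0) (ρ : Fin n → ℝ) (c v : Fin n → V) :
    (∑ i, ∫ y, D1 (Ai φ M ρ i) c y) v
      = ∑ i, ∑ j, ⟪c i - c j, v i - v j⟫ * ∫ y : V, deriv (deriv M) (sg φ ρ (c, y)) *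
          (deriv φ (pw ρ i (c, y)) * deriv φ (pw ρ j (c, y))) := by
  have h1 : (∑ i, ∫ y, D1 (Ai φ M ρ i) c y) v
      = ∫ y, ∑ i, (dA φ M ρ i c v y - dA φ M ρ i c (fun _ => v i) y) := by
    rw [_root_.sum_apply, integral_finsetSum]
    · refine Finset.sum_congr rfl fun i _ => ?_
      have h2 : (∫ y, D1 (Ai φ M ρ i) c y) v
          = (∫ y, D1 (Ai φ M ρ i) c y) v - (∫ y, D1 (Ai φ M ρ i) c y) (fun _ => v i) := by
        rw [translate_zero hφ hM hφ1 ρ c i (v i), sub_zero]
      have hint := (param_Ai hφ hM hφ1 ρ c i).1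
      rw [h2, ContinuousLinearMap.integral_apply hint, ContinuousLinearMap.integral_apply hint,
        ← integral_sub (hint.apply_continuousLinearMap _) (hint.apply_continuousLinearMap _)]
      simp_rw [D1_Ai hφ hM]
    · intro i _
      have hint := (param_Ai hφ hM hφ1 ρ c i).1
      have h3 := (hint.apply_continuousLinearMap v).sub
        (hint.apply_continuousLinearMap (fun _ => v i))
      refine h3.congr (Filter.Eventually.of_forall fun y => ?_)
      simp only [Pi.sub_apply, D1_Ai hφ hM]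
  rw [h1]
  simp_rw [pointwise_eq]
  rw [integral_finsetSum]
  · refine Finset.sum_congr rfl fun i _ => ?_
    rw [integral_finsetSum]
    · refine Finset.sum_congr rfl fun j _ => ?_
      rw [integral_const_mul]
    · intro j _
      exact (integrable_wall hφ hM hφ1 ρ c i j).const_mul _
  · intro i _
    refine integrable_finset_sum _ fun j _ => ?_
    exact (integrable_wall hφ hM hφ1 ρ c i j).const_mul _

end gen

variable {n N : ℕ}

lemma rk_eq (k : ℕ) (M : ℝ → ℝ) (ρ : Fin n → ℝ) (i j : Fin n) (σ : ℝ) (c : Fin n → Eu N) :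
    rk k M ρ i j σ c = -∫ y : Eu N, deriv (deriv M) (sg (phs k σ) ρ (c, y)) *
      (deriv (phs k σ) (pw ρ i (c, y)) * deriv (phs k σ) (pw ρ j (c, y))) := by
  unfold rk
  rw [← integral_neg]
  refine integral_congr_ae (Filter.Eventually.of_forall fun y => ?_)
  simp only [phs_deriv]
  show -(deriv (deriv M) (∑ l, phk k (pw ρ l (c, y) - σ))) * _ = -(deriv (deriv M)
    (∑ l, phk k (pw ρ l (c, y) - σ)) * _)
  ring

/-- the derivative of the smoothed functional in the level. -/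
lemma hasDerivAt_Us {M : ℝ → ℝ} (hM : ContDiff ℝ 2 M) (ρ : Fin n → ℝ) {k : ℕ} (hk : 1 ≤ k)
    (c : Fin n → Eu N) {s : ℝ} (hs : s ≤ 1 / 2) :
    HasDerivAt (fun s => Us k M ρ s c) (-J (phs k s) M ρ c) s := by
  let F : ℝ × Eu N → ℝ := fun w => M (∑ l, phk k (pw ρ l (c, w.2) - w.1)) - M 0
  have hpw : ∀ l, ContDiff ℝ 2 fun w : ℝ × Eu N => pw ρ l (c, w.2) - w.1 := by
    intro l
    refine ContDiff.sub ?_ contDiff_fst
    exact (contDiff_pw ρ l).comp (contDiff_const.prodMk contDiff_snd)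
  have hF : ContDiff ℝ 1 F := by
    refine ContDiff.sub ?_ contDiff_const
    refine (hM.of_le (by norm_num)).comp ?_
    exact ContDiff.sum fun l _ => ((phk_contDiff k).comp (hpw l)).of_le (by norm_num)
  have hsupp : ∀ s' ∈ closedBall s 1, ∀ y : Eu N,
      (∑ l, (‖c l‖ + |ρ l|)) + |s| + 3 < ‖y‖ → F (s', y) = 0 := by
    intro s' hs' y hy
    have h0 : s' ≤ |s| + 1 := by
      have h1 : dist s' s ≤ 1 := hs'
      rw [Real.dist_eq] at h1
      have h2 := (abs_le.1 h1).2
      have h3 := le_abs_self s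
      linarith
    have h1 : ∀ l, phk k (pw ρ l (c, y) - s') = 0 := by
      intro l
      refine phk_zero' k _ ?_
      have h2 : ‖c l‖ + |ρ l| ≤ ∑ l, (‖c l‖ + |ρ l|) :=
        Finset.single_le_sum (f := fun l => ‖c l‖ + |ρ l|) (fun _ _ => by positivity)
          (Finset.mem_univ l)
      have h3 : |ρ l| + |s| + 3 < ‖y - c l‖ := by
        have := norm_sub_norm_le y (c l)
        linarith
      show 1 ≤ ‖y - c l‖ ^ 2 - ρ l ^ 2 - s'
      rw [← sq_abs (ρ l)]
      have h4 := abs_nonneg (ρ l)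
      have h5 := abs_nonneg s
      nlinarith
    show M (∑ l, phk k (pw ρ l (c, y) - s')) - M 0 = 0
    simp only [h1, Finset.sum_const_zero, sub_self]
  obtain ⟨hint, -, hder⟩ := param_main hF s hsupp
  have h1 : HasDerivAt (fun s => Us k M ρ s c) ((∫ y, D1 F s y) 1) s := by
    have h2 := hder.hasDerivAt
    exact h2
  have h2 : (∫ y, D1 F s y) 1 = -J (phs k s) M ρ c := by
    rw [ContinuousLinearMap.integral_apply hint]
    unfold J
    rw [← integral_finsetSum, ← integral_neg]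
    · refine integral_congr_ae (Filter.Eventually.of_forall fun y => ?_)
      have h3 : HasDerivAt (fun s' => F (s', y)) (D1 F s y 1) s :=
        (hasFDerivAt_D1 hF s y).hasDerivAt
      have h4 : ∀ l, HasDerivAt (fun s' => phk k (pw ρ l (c, y) - s'))
          (deriv (phk k) (pw ρ l (c, y) - s) * (-1)) s := by
        intro l
        have h5 : HasDerivAt (fun s' : ℝ => pw ρ l (c, y) - s') (-1) s :=
          (hasDerivAt_id s).const_sub _
        have h6 : HasDerivAt (phk k) (deriv (phk k) (pw ρ l (c, y) - s)) (pw ρ l (c, y) - s) :=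
          (((phk_contDiff k).differentiable (by norm_num)) _).hasDerivAt
        exact h6.comp s h5
      have h5 : HasDerivAt (fun s' => ∑ l, phk k (pw ρ l (c, y) - s'))
          (∑ l, deriv (phk k) (pw ρ l (c, y) - s) * (-1)) s :=
        HasDerivAt.fun_sum fun l _ => h4 l
      have h6 : HasDerivAt M (deriv M (∑ l, phk k (pw ρ l (c, y) - s)))
          (∑ l, phk k (pw ρ l (c, y) - s)) := ((hM.differentiable (by norm_num)) _).hasDerivAt
      have h7 : HasDerivAt (fun s' => F (s', y)) (deriv M (∑ l, phk k (pw ρ l (c, y) - s)) *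
          ∑ l, deriv (phk k) (pw ρ l (c, y) - s) * (-1)) s :=
        (h6.comp s h5).sub_const _
      have h8 := h3.unique h7
      show D1 F s y 1 = -∑ i, Ai (phs k s) M ρ i (c, y)
      rw [h8]
      unfold Ai
      simp only [phs_deriv]
      rw [← Finset.mul_sum, ← Finset.sum_mul]
      show _ = -(deriv M (∑ l, phk k (pw ρ l (c, y) - s)) * _)
      ring
    · intro i _
      exact (param_Ai (phs_contDiff k s) hM (phs_zero hk hs) ρ c i).2.1
  rw [h2] at h1
  exact h1


/-- the stopped path -/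
noncomputable def stp (c : ℝ → Fin n → Eu N) (t1 t2 t : ℝ) : Fin n → Eu N :=
  c (max t1 (min t2 t))

lemma stp_eq (c : ℝ → Fin n → Eu N) {t1 t2 t : ℝ} (ht : t ∈ Icc t1 t2) :
    stp c t1 t2 t = c t := by
  unfold stp
  rw [min_eq_right ht.2, max_eq_right ht.1]

lemma stp_cont {c : ℝ → Fin n → Eu N} {t1 t2 : ℝ} (h12 : t1 ≤ t2)
    (h : ContinuousOn c (Icc t1 t2)) : Continuous (stp c t1 t2) := by
  refine h.comp_continuous (f := fun t => max t1 (min t2 t)) (by fun_prop) ?_
  intro t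
  exact ⟨le_max_left _ _, max_le h12 (min_le_left _ _)⟩

/-- the derivative of `J` along the path. -/
lemma path_step {M : ℝ → ℝ} (hM : ContDiff ℝ 2 M) (ρ : Fin n → ℝ) {k : ℕ} (hk : 1 ≤ k)
    (A B : Fin n → Fin n → ℝ) (c : ℝ → Fin n → Eu N)
    (hcd : ∀ t ∈ Ioo (0 : ℝ) 1, DifferentiableAt ℝ c t)
    (hdist : ∀ t ∈ Icc (0 : ℝ) 1, ∀ i j, ‖c t i - c t j‖ ^ 2 = (1 - t) * A i j + t * B i j)
    {σ : ℝ} (hσ : σ ≤ 1 / 2) {t : ℝ} (ht01 : t ∈ Ioo (0 : ℝ) 1) :
    HasDerivAt (fun t => J (phs k σ) M ρ (c t))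
      (∑ i, ∑ j, ((A i j - B i j) / 2) * rk k M ρ i j σ (c t)) t := by
  have h1 : HasDerivAt (fun t => J (phs k σ) M ρ (c t))
      ((∑ i, ∫ y, D1 (Ai (phs k σ) M ρ i) (c t) y) (deriv c t)) t :=
    (hasFDerivAt_J (phs_contDiff k σ) hM (phs_zero hk hσ) ρ (c t)).comp_hasDerivAt t
      (hcd t ht01).hasDerivAt
  have h2 : (∑ i, ∫ y, D1 (Ai (phs k σ) M ρ i) (c t) y) (deriv c t)
      = ∑ i, ∑ j, ((A i j - B i j) / 2) * rk k M ρ i j σ (c t) := by
    rw [derJ (phs_contDiff k σ) hM (phs_zero hk hσ) ρ (c t) (deriv c t)]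
    refine Finset.sum_congr rfl fun i _ => Finset.sum_congr rfl fun j _ => ?_
    rw [rk_eq]
    have hci : ∀ i, HasDerivAt (fun s => c s i) (deriv c t i) t := fun i =>
      (hasDerivAt_pi.1 (hcd t ht01).hasDerivAt) i
    have h3 : HasDerivAt (fun s => ‖c s i - c s j‖ ^ 2)
        (2 * ⟪c t i - c t j, deriv c t i - deriv c t j⟫) t :=
      ((hci i).fun_sub (hci j)).norm_sq
    have h4 : HasDerivAt (fun s : ℝ => (1 - s) * A i j + s * B i j) (B i j - A i j) t := by
      have h5 : HasDerivAt (fun s : ℝ => (1 - s) * A i j) ((-1) * A i j) t :=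
        ((hasDerivAt_id t).const_sub 1).mul_const _
      have h6 : HasDerivAt (fun s : ℝ => s * B i j) (1 * B i j) t :=
        (hasDerivAt_id t).mul_const _
      have h7 := h5.add h6
      have e : (-1) * A i j + 1 * B i j = B i j - A i j := by ring
      rw [e] at h7
      exact h7
    have h5 : HasDerivAt (fun s => ‖c s i - c s j‖ ^ 2) (B i j - A i j) t := by
      refine h4.congr_of_eventuallyEq ?_
      filter_upwards [Ioo_mem_nhds ht01.1 ht01.2] with s' hs'
      exact hdist s' ⟨hs'.1.le, hs'.2.le⟩ i j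
    have h6 := h3.unique h5
    have h7 : ⟪c t i - c t j, deriv c t i - deriv c t j⟫ = (B i j - A i j) / 2 := by
      linarith
    rw [h7]
    ring
  rw [h2] at h1
  exact h1

/-- the swap and the fundamental theorem, for an abstract two-variable kernel. -/
lemma swap_abs {ι : Type*} [Fintype ι] (w : ι → ℝ) (r : ι → ℝ → ℝ → ℝ)
    (hr : ∀ i, Continuous fun z : ℝ × ℝ => r i z.1 z.2)
    (D : ℝ → ℝ) (t1 t2 : ℝ)
    (hD : ∀ σ ≤ (1 : ℝ) / 2, HasDerivAt D (-∫ t in t1..t2, ∑ i, w i * r i σ t) σ)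
    (a b : ℝ) (hab : a ≤ b) (hb : b ≤ 1 / 2) :
    D b - D a = -∫ t in t1..t2, ∑ i, w i * ∫ σ in a..b, r i σ t := by
  set g : ℝ → ℝ → ℝ := fun σ t => ∑ i, w i * r i σ t with hg
  have hgc : Continuous (Function.uncurry g) := by
    refine continuous_finset_sum _ fun i _ => ?_
    exact continuous_const.mul (hr i)
  set G : ℝ → ℝ := fun σ => ∫ t in t1..t2, g σ t with hG
  have hGc : Continuous G :=
    intervalIntegral.continuous_parametric_intervalIntegral_of_continuous' hgc t1 t2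
  have hFT : D b - D a = -∫ σ in a..b, G σ := by
    rw [← intervalIntegral.integral_neg]
    symm
    refine intervalIntegral.integral_eq_sub_of_hasDerivAt ?_
      (hGc.neg.intervalIntegrable _ _)
    intro σ hσ
    rw [uIcc_of_le hab] at hσ
    exact hD σ (hσ.2.trans hb)
  have hswap : ∫ σ in a..b, G σ = ∫ t in t1..t2, ∑ i, w i * ∫ σ in a..b, r i σ t := by
    rw [hG]
    rw [intervalIntegral_intervalIntegral_swap]
    · refine intervalIntegral.integral_congr fun t _ => ?_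
      rw [hg]
      simp only
      rw [intervalIntegral.integral_finset_sum]
      · refine Finset.sum_congr rfl fun i _ => ?_
        rw [intervalIntegral.integral_const_mul]
      · intro i _
        have h1 : Continuous fun σ => w i * r i σ t :=
          continuous_const.mul ((hr i).comp (continuous_id.prodMk continuous_const))
        exact h1.intervalIntegrable _ _
    · have hK : IsCompact (uIcc a b ×ˢ uIcc t1 t2) := isCompact_uIcc.prod isCompact_uIcc
      exact (hgc.continuousOn.integrableOn_compact hK).mono_set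
        (Set.prod_mono uIoc_subset_uIcc uIoc_subset_uIcc)
  rw [hFT, hswap]

/-- continuity of the swapped integrand. -/
lemma swap_cont {ι : Type*} [Fintype ι] (w : ι → ℝ) (r : ι → ℝ → ℝ → ℝ)
    (hr : ∀ i, Continuous fun z : ℝ × ℝ => r i z.1 z.2) (a b : ℝ) :
    Continuous fun t => ∑ i, w i * ∫ σ in a..b, r i σ t := by
  refine continuous_finset_sum _ fun i _ => continuous_const.mul ?_
  exact intervalIntegral.continuous_parametric_intervalIntegral_of_continuous'
    (f := fun t σ => r i σ t)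
    ((hr i).comp (continuous_snd.prodMk continuous_fst)) a b

/-- the abstract double difference. -/
lemma dbl_abs {ι : Type*} [Fintype ι] (w : ι → ℝ) (r : ι → ℝ → ℝ → ℝ)
    (hr : ∀ i, Continuous fun z : ℝ × ℝ => r i z.1 z.2)
    (D : ℝ → ℝ) (t1 t2 : ℝ)
    (hD : ∀ σ ≤ (1 : ℝ) / 2, HasDerivAt D (-∫ t in t1..t2, ∑ i, w i * r i σ t) σ)
    (s ε : ℝ) (hε : 0 < ε) (hs : s + 2 * ε ≤ 1 / 2) :
    (D (s + 2 * ε) - D (s + ε)) - (D (s + ε) - D s)
      = -∫ t in t1..t2, ∑ i, w i * ((∫ σ in (s + ε)..(s + 2 * ε), r i σ t)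
          - ∫ σ in s..(s + ε), r i σ t) := by
  rw [swap_abs w r hr D t1 t2 hD (s + ε) (s + 2 * ε) (by linarith) hs,
    swap_abs w r hr D t1 t2 hD s (s + ε) (by linarith) (by linarith)]
  have h1 : ∀ t, ∑ i, w i * ((∫ σ in (s + ε)..(s + 2 * ε), r i σ t)
          - ∫ σ in s..(s + ε), r i σ t)
      = (∑ i, w i * ∫ σ in (s + ε)..(s + 2 * ε), r i σ t)
        - ∑ i, w i * ∫ σ in s..(s + ε), r i σ t := by
    intro t
    rw [← Finset.sum_sub_distrib]
    refine Finset.sum_congr rfl fun i _ => ?_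
    ring
  simp_rw [h1]
  rw [intervalIntegral.integral_sub ((swap_cont w r hr _ _).intervalIntegrable _ _)
      ((swap_cont w r hr _ _).intervalIntegrable _ _)]
  ring


lemma comp_abs {X : Type*} [TopologicalSpace X] (R : ℝ → X → ℝ)
    (hR : Continuous fun z : ℝ × X => R z.1 z.2) (f : ℝ → X) (hf : Continuous f) :
    Continuous fun z : ℝ × ℝ => R z.1 (f z.2) :=
  hR.comp (continuous_fst.prodMk (hf.comp continuous_snd))

attribute [local irreducible] rk in
theorem der (hCONT : T_CONT) : T_DER := by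
  intro n N M hM ρ k hk c A B hc s ε hε hs t1 t2 ht1 ht12 ht2
  obtain ⟨hcc, hcd, hdist, -⟩ := hc
  have hsub : Icc t1 t2 ⊆ Icc 0 1 := Icc_subset_Icc ht1.le ht2.le
  have hcont : Continuous (stp c t1 t2) := stp_cont ht12 (hcc.mono hsub)
  have hceq : ∀ t ∈ Icc t1 t2, stp c t1 t2 t = c t := fun t ht => stp_eq c ht
  set w : Fin n × Fin n → ℝ := fun p => (A p.1 p.2 - B p.1 p.2) / 2 with hw
  set r : Fin n × Fin n → ℝ → ℝ → ℝ := fun p σ t => rk k M ρ p.1 p.2 σ (stp c t1 t2 t) with hr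
  have hrc : ∀ p, Continuous fun z : ℝ × ℝ => r p z.1 z.2 := by
    intro p
    exact comp_abs (rk k M ρ p.1 p.2) (hCONT n N M hM ρ k p.1 p.2) (stp c t1 t2) hcont
  have hgt : ∀ σ, Continuous fun t => ∑ p, w p * r p σ t := by
    intro σ
    refine continuous_finset_sum _ fun p _ => continuous_const.mul ?_
    exact (hrc p).comp (continuous_const.prodMk continuous_id)
  have hstep : ∀ σ ≤ 1 / 2, J (phs k σ) M ρ (c t2) - J (phs k σ) M ρ (c t1)
      = ∫ t in t1..t2, ∑ p, w p * r p σ t := by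
    intro σ hσ
    symm
    refine intervalIntegral.integral_eq_sub_of_hasDerivAt (f := fun t => J (phs k σ) M ρ (c t))
      ?_ ((hgt σ).intervalIntegrable _ _)
    intro t ht
    rw [uIcc_of_le ht12] at ht
    have ht01 : t ∈ Ioo (0 : ℝ) 1 := ⟨lt_of_lt_of_le ht1 ht.1, lt_of_le_of_lt ht.2 ht2⟩
    have h1 := path_step hM.1 ρ hk A B c hcd hdist hσ ht01
    have h2 : ∑ p, w p * r p σ t = ∑ i, ∑ j, ((A i j - B i j) / 2) * rk k M ρ i j σ (c t) := by
      rw [Fintype.sum_prod_type, ← hceq t ht]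
    rw [h2]
    exact h1
  have hDd : ∀ σ ≤ (1 : ℝ) / 2, HasDerivAt
      (fun s => Us k M ρ s (c t2) - Us k M ρ s (c t1)) (-∫ t in t1..t2, ∑ p, w p * r p σ t) σ := by
    intro σ hσ
    have h1 := (hasDerivAt_Us hM.1 ρ hk (c t2) hσ).fun_sub (hasDerivAt_Us hM.1 ρ hk (c t1) hσ)
    have e : -J (phs k σ) M ρ (c t2) - -J (phs k σ) M ρ (c t1)
        = -∫ t in t1..t2, ∑ p, w p * r p σ t := by
      rw [← hstep σ hσ]
      ring
    rw [e] at h1
    exact h1
  have hmain := dbl_abs w r hrc _ t1 t2 hDd s ε hε hs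
  have hL : D2Us k M ρ s ε (c t2) - D2Us k M ρ s ε (c t1)
      = ((Us k M ρ (s + 2 * ε) (c t2) - Us k M ρ (s + 2 * ε) (c t1))
          - (Us k M ρ (s + ε) (c t2) - Us k M ρ (s + ε) (c t1)))
        - ((Us k M ρ (s + ε) (c t2) - Us k M ρ (s + ε) (c t1))
          - (Us k M ρ s (c t2) - Us k M ρ s (c t1))) := by
    unfold D2Us
    ring
  rw [hL, hmain]
  congr 1
  refine intervalIntegral.integral_congr fun t ht => ?_
  rw [uIcc_of_le ht12] at ht
  simp only
  rw [Fintype.sum_prod_type, ← hceq t ht]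
  rfl

end Pool.Agent.H35.KPO
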